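import Mathlib
import Pool.Agent.H371R2.CE.Final

set_option autoImplicit false

/-!
# Evasiveness for every number of vertices of monotone properties for which stars are extremal
-/

namespace Pool.Agent.Results.MP_257582_lc.ComponentSizes

open Pool.Agent.H371R2.CE

/-- Let `n ≥ 2` be arbitrary (no prime power restriction) and let `P` be a monotone property of
graphs on `Fin n` which holds for all trees and fails for the graph without edges. Suppose that
whenever `P` fails for a forest with an isolated vertex it also fails for all disjoint unions of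
stars with the same component sizes (for example: the values of `P` on forests depend only on
the component sizes; in particular `P` depends only on the component sizes). Then `P` is evasive,
in the form of the frozen statement of the problem. -/
theorem result (n : ℕ) (hn : 2 ≤ n) (P : SimpleGraph (Fin n) → Prop)
    (hmono : ∀ G H : SimpleGraph (Fin n), G ≤ H → P G → P H)
    (htree : ∀ T : SimpleGraph (Fin n), T.IsTree → P T)
    (hbot : ¬ P ⊥)
    (hstar : ∀ G : SimpleGraph (Fin n), G.IsAcyclic → (∃ v, ∀ w, ¬ G.Adj v w) → ¬ P G →
      ∀ f : Fin n → Fin n, (∀ v, f (f v) = f v) → sizes (starG f) = sizes G →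
      ¬ P (starG f)) :
    ∀ s : Finset (Sym2 (Fin n)) → SimpleGraph (Fin n) → Sym2 (Fin n),
      (∀ (Q : Finset (Sym2 (Fin n))) (G H : SimpleGraph (Fin n)),
          (∀ e ∈ Q, (e ∈ G.edgeSet ↔ e ∈ H.edgeSet)) → s Q G = s Q H) →
      ∃ G H : SimpleGraph (Fin n),
        (∀ e ∈ (fun Q : Finset (Sym2 (Fin n)) => insert (s Q G) Q)^[n.choose 2 - 1]
              (∅ : Finset (Sym2 (Fin n))),
            (e ∈ G.edgeSet ↔ e ∈ H.edgeSet)) ∧ P G ∧ ¬ P H :=
  forest_star n hn P hmono hbot htree hstar

end Pool.Agent.Results.MP_257582_lc.ComponentSizes
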