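import Mathlib
import Pool.Agent.H98R2.Nb.Main

set_option autoImplicit false

/-!
# Containing a near-cubical 3-chromatic graph is evasive for all large `n` (MP_257582_lc)

Let `𝓕` be a (finite or infinite) family of connected non-bipartite graphs such that some member
`F` has an independent set `I` for which `F - I` is isomorphic to a subgraph of a hypercube (a
forest, an even cycle, a grid, ...). If the family is stable under blow-ups (for example if its
members have bounded order), then the property of `n`-vertex graphs of containing a member of `𝓕`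
is evasive for ALL large `n`.
-/

namespace Pool.Agent.Results.MP_257582_lc.NearBipartite

/-- `G` contains a member of the family `𝓕` as a (not necessarily induced) subgraph. -/
def ContainsMember (𝓕 : Set (Σ k : ℕ, SimpleGraph (Fin k))) {V : Type} (G : SimpleGraph V) :
    Prop :=
  ∃ F ∈ 𝓕, ∃ f : Fin F.1 → V, Function.Injective f ∧ ∀ x y, F.2.Adj x y → G.Adj (f x) (f y)

/-- The `b`-fold blow-up of `G`: every vertex is replaced by `b` independent vertices and every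
edge by a complete bipartite graph. -/
def BlowUp {V : Type} (G : SimpleGraph V) (b : ℕ) : SimpleGraph (V × Fin b) where
  Adj x y := G.Adj x.1 y.1
  symm := ⟨fun _ _ h => h.symm⟩
  loopless := ⟨fun x h => G.loopless.irrefl x.1 h⟩

/-- `G` has an independent set `I` such that `G - I` is isomorphic to a subgraph of a hypercube
(vertices: the subsets of an `N`-element set; edges: pairs of subsets that differ in exactly one
element). -/
def NearCubical {k : ℕ} (G : SimpleGraph (Fin k)) : Prop :=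
  ∃ (N : ℕ) (I : Set (Fin k)) (φ : Fin k → Finset (Fin N)),
    (∀ x ∈ I, ∀ y ∈ I, ¬ G.Adj x y) ∧
    (∀ x ∉ I, ∀ y ∉ I, φ x = φ y → x = y) ∧
    ∀ x ∉ I, ∀ y ∉ I, G.Adj x y → (symmDiff (φ x) (φ y)).card = 1

theorem containsMember_iff (𝓕 : Set (Σ k : ℕ, SimpleGraph (Fin k))) {V : Type}
    (G : SimpleGraph V) : ContainsMember 𝓕 G ↔ Pool.Agent.H98R2.Nb.Has 𝓕 G := by
  constructor
  · rintro ⟨F, hF, f, hf, hadj⟩
    exact ⟨F, hF, ⟨⟨⟨f, fun {x y} h => hadj x y h⟩, hf⟩⟩⟩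
  · rintro ⟨F, hF, ⟨f⟩⟩
    exact ⟨F, hF, f, f.injective, fun x y h => f.toHom.map_adj h⟩

/-- **Evasiveness of subgraph containment for all large `n`.** -/
theorem result (𝓕 : Set (Σ k : ℕ, SimpleGraph (Fin k)))
    (hconn : ∀ F ∈ 𝓕, F.2.Connected) (hnonbip : ∀ F ∈ 𝓕, ¬ F.2.Colorable 2)
    (hnear : ∃ F ∈ 𝓕, NearCubical F.2)
    (hstable : (∃ B : ℕ, ∀ F ∈ 𝓕, F.1 ≤ B) ∨
      ∃ b : ℕ, ∀ (m N : ℕ) (Γ : SimpleGraph (Fin m)),
        ContainsMember 𝓕 (BlowUp Γ N) → ContainsMember 𝓕 (BlowUp Γ b)) :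
    ∃ n₀ : ℕ, ∀ n : ℕ, n₀ ≤ n →
      ∀ s : Finset (Sym2 (Fin n)) → SimpleGraph (Fin n) → Sym2 (Fin n),
        (∀ (Q : Finset (Sym2 (Fin n))) (G H : SimpleGraph (Fin n)),
            (∀ e ∈ Q, (e ∈ G.edgeSet ↔ e ∈ H.edgeSet)) → s Q G = s Q H) →
        ∃ G H : SimpleGraph (Fin n),
          (∀ e ∈ (fun Q : Finset (Sym2 (Fin n)) => insert (s Q G) Q)^[n.choose 2 - 1]
                (∅ : Finset (Sym2 (Fin n))),
              (e ∈ G.edgeSet ↔ e ∈ H.edgeSet)) ∧ ContainsMember 𝓕 G ∧ ¬ ContainsMember 𝓕 H := by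
  have hstab : ∃ b : ℕ, ∀ (m N : ℕ) (Γ : SimpleGraph (Fin m)),
      ContainsMember 𝓕 (BlowUp Γ N) → ContainsMember 𝓕 (BlowUp Γ b) := by
    rcases hstable with ⟨B, hB⟩ | h
    · refine ⟨B, ?_⟩
      rintro m N Γ ⟨F, hF, f, hf, hadj⟩
      refine ⟨F, hF, fun x => ((f x).1, Fin.castLE (hB F hF) x), ?_, fun x y h => hadj x y h⟩
      intro x y hxy
      exact Fin.castLE_injective (hB F hF) (congrArg Prod.snd hxy)
    · exact h
  obtain ⟨b, hb⟩ := hstab
  have hblow : ∀ {W : Type} (Γ : SimpleGraph W) (N : ℕ),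
      BlowUp Γ N = Pool.Agent.H98R2.Nb.blow Γ N := fun _ _ => rfl
  have hgood : Pool.Agent.H98R2.Nb.Good 𝓕 b := by
    refine ⟨hconn, hnonbip, fun m N Γ h => ?_⟩
    rw [← hblow, ← containsMember_iff]
    apply hb m N Γ
    rw [containsMember_iff, hblow]
    exact h
  have hnc : ∃ F ∈ 𝓕, ∃ N, Pool.Agent.H98R2.Nb.NC F.2 N := by
    obtain ⟨F, hF, N, I, φ, h1, h2, h3⟩ := hnear
    exact ⟨F, hF, N, I, φ, h1, fun x hx y hy h => h2 x hx y hy h, h3⟩
  obtain ⟨n₀, hn₀⟩ := Pool.Agent.H98R2.Nb.main 𝓕 b hgood hnc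
  refine ⟨n₀, fun n hn s hs => ?_⟩
  obtain ⟨G, H, h1, h2, h3⟩ := hn₀ n hn s hs
  exact ⟨G, H, h1, (containsMember_iff 𝓕 G).2 h2, fun h => h3 ((containsMember_iff 𝓕 H).1 h)⟩

end Pool.Agent.Results.MP_257582_lc.NearBipartite
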