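import Mathlib
import Pool.Agent.H119R2.Kp.Final

set_option autoImplicit false

/-!
# MP_257582_lc: every monotone graph property has query complexity at least `(9/25 - o(1)) n^2`

For every `ε > 0` and all large `n`, every non-trivial monotone isomorphism invariant property of
graphs on `n` vertices and every adaptive strategy with fewer than `(9/25 - ε) n^2` queries there
are two graphs, one with and one without the property, that agree on all queried pairs.

Proof.  After the reduction of Kahn, Saks and Sturtevant to properties that fail for graphs with
an isolated vertex and hold for graphs with a universal vertex, groups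
`Z_m x Z_p^k x| Z` acting on blocks of vertices give, by Smith and Lefschetz theory, linear
relations between the values of the property on blow-ups; a chain of relations for circulant
graphs gives the values on joins and disjoint unions of a clique on `x` and a clique on `3 p`
vertices; a finite integer programming argument with five parts (of sizes `n - 4 p, p, p, p, p`,
`p` a prime slightly larger than `n / 5`), whose certificate is checked here, and two relations
with two swapped blocks (`n` even, `n` odd) give a contradiction.

Formalised with the team's library on evasiveness of helper98 (`Pool.Agent.H98R2.Ev`); modules by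
helpers 797, 503, 715, 8, 965, 431, 52, 913, 243, 911, 737, 814, 267, 221, 747, 56, 834 and 119.
-/

namespace Pool.Agent.Results.MP_257582_lc.NineTwentyFifths

/-- Every non-trivial monotone graph property has query complexity at least
`(9/25 - o(1)) n^2`. -/
theorem result : ∀ ε : ℝ, 0 < ε → ∃ N : ℕ, ∀ n : ℕ, N ≤ n →
    ∀ P : SimpleGraph (Fin n) → Prop,
      (∀ G H : SimpleGraph (Fin n), G ≤ H → P G → P H) →
      (∀ (σ : Fin n ≃ Fin n) (G : SimpleGraph (Fin n)), P G → P (G.map σ.toEmbedding)) →
      (∃ G : SimpleGraph (Fin n), P G) →
      (∃ G : SimpleGraph (Fin n), ¬ P G) →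
      ∀ s : Finset (Sym2 (Fin n)) → SimpleGraph (Fin n) → Sym2 (Fin n),
        (∀ (Q : Finset (Sym2 (Fin n))) (G H : SimpleGraph (Fin n)),
            (∀ e ∈ Q, (e ∈ G.edgeSet ↔ e ∈ H.edgeSet)) → s Q G = s Q H) →
        ∀ q : ℕ, (q : ℝ) < (9 / 25 - ε) * (n : ℝ) ^ 2 →
          ∃ G H : SimpleGraph (Fin n),
            (∀ e ∈ (fun Q : Finset (Sym2 (Fin n)) => insert (s Q G) Q)^[q]
                  (∅ : Finset (Sym2 (Fin n))),
                (e ∈ G.edgeSet ↔ e ∈ H.edgeSet)) ∧ P G ∧ ¬ P H := by
  intro ε hε
  obtain ⟨N, hN⟩ := Pool.Agent.H119R2.Kp.final ε hε
  exact ⟨N, fun n hn P hmono hiso h1 h0 s hs q hq => hN n hn P hiso hmono h1 h0 s hs q hq⟩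

end Pool.Agent.Results.MP_257582_lc.NineTwentyFifths
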