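import Mathlib
import Pool.Agent.H98R2.Ev.T15
import Pool.Agent.H98R2.Ev.T16
import Pool.Agent.H98R2.Ev.T17
import Pool.Agent.H98R2.Ev.T18
import Pool.Agent.H98R2.Nt.N11

set_option autoImplicit false

/-!
# Sparse monotone graph properties are evasive (MP_257582_lc)

There is an absolute constant `c > 0` such that for all large `n` every non-trivial,
isomorphism-invariant, monotone property of `n`-vertex graphs, all of whose non-members are
`Thin` (for instance have at most `n ^ (3 / 2 + c)` edges), is evasive; dually if the complements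
of all members are `Thin`. No hypothesis from number theory is assumed.
-/

namespace Pool.Agent.Results.MP_257582_lc.SparseEvasive

open Finset Pool.Agent.H98R2.Ev Pool.Agent.H98R2.Nt

/-- After the deletion of a set `X` of at most `n / 11` vertices the graph either has at most
`n ^ (3 / 2 + c)` edges, or it contains no complete bipartite graph with `⌈√n⌉` vertices on each
side and every set `U` of at least `⌈√n⌉` remaining vertices contains two (not necessarily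
distinct) sets of at least `n ^ (-c) * |U|` vertices with no edge between them. -/
def Thin (n : ℕ) (c : ℝ) (G : SimpleGraph (Fin n)) : Prop :=
  ∃ X : Finset (Fin n), 11 * X.card ≤ n ∧
    ((({e : Sym2 (Fin n) | e ∈ G.edgeSet ∧ ∀ v ∈ X, v ∉ e}.ncard : ℕ) : ℝ) ≤
        (n : ℝ) ^ (3 / 2 + c) ∨
      ((∀ A B : Finset (Fin n), Disjoint A X → Disjoint B X → A.card = ⌈Real.sqrt n⌉₊ →
          B.card = ⌈Real.sqrt n⌉₊ → ∃ a ∈ A, ∃ b ∈ B, ¬ G.Adj a b) ∧
        (∀ U : Finset (Fin n), Disjoint U X → ⌈Real.sqrt n⌉₊ ≤ U.card →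
          ∃ A B : Finset (Fin n), A ⊆ U ∧ B ⊆ U ∧ (n : ℝ) ^ (-c) * U.card ≤ A.card ∧
            (n : ℝ) ^ (-c) * U.card ≤ B.card ∧ ∀ a ∈ A, ∀ b ∈ B, ¬ G.Adj a b)))

/-- real estimates for large `n` -/
theorem numeric (η : ℝ) (hη : 0 < η) (hη2 : η ≤ 1 / 10) : ∃ n₀ : ℕ, ∀ n : ℕ, n₀ ≤ n →
    1000 ≤ n ∧ (2 * (n : ℝ) ^ (3 / 2 + η / 4) + 1 ≤ (n : ℝ) / 110 * (n : ℝ) ^ (1 / 2 + η / 2)) ∧
    (n : ℝ) ^ (1 / 2 + η / 2) ≤ n ∧ 1000 ≤ (n : ℝ) ^ (η / 4) := by
  have h := (tendsto_rpow_atTop (y := η / 4) (by linarith)).comp tendsto_natCast_atTop_atTop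
  obtain ⟨n₀, hn₀⟩ := Filter.eventually_atTop.1 (h.eventually_ge_atTop (1000 : ℝ))
  refine ⟨max n₀ 1000, fun n hn => ?_⟩
  have h1 : (1000 : ℝ) ≤ (n : ℝ) ^ (η / 4) := hn₀ n ((le_max_left _ _).trans hn)
  have hn2' : 1000 ≤ n := (le_max_right _ _).trans hn
  have hn2 : (1000 : ℝ) ≤ n := by exact_mod_cast hn2'
  have hn0 : (0 : ℝ) < n := by linarith
  have h1n : (1 : ℝ) ≤ n := by linarith
  set A : ℝ := (n : ℝ) ^ (3 / 2 + η / 4) with hA
  have hA1 : 1 ≤ A := Real.one_le_rpow h1n (by linarith)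
  have h2 : (n : ℝ) * (n : ℝ) ^ (1 / 2 + η / 2) = A * (n : ℝ) ^ (η / 4) := by
    rw [hA, ← Real.rpow_add hn0]
    conv_lhs => rw [← Real.rpow_one (n : ℝ), ← Real.rpow_mul hn0.le, ← Real.rpow_add hn0]
    congr 1
    ring
  have h3 : (n : ℝ) ^ (1 / 2 + η / 2) ≤ n := by
    conv_rhs => rw [← Real.rpow_one (n : ℝ)]
    exact Real.rpow_le_rpow_of_exponent_le h1n (by linarith)
  have h4 : 1000 * A ≤ (n : ℝ) * (n : ℝ) ^ (1 / 2 + η / 2) := by
    rw [h2, mul_comm]
    exact mul_le_mul_of_nonneg_left h1 (by linarith)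
  refine ⟨hn2', ?_, h3, h1⟩
  nlinarith

theorem aux_mul (a b c q : ℝ) (hq : 0 ≤ q) (h : a + 2 * b ≤ c) :
    a * q + b * (q + q) ≤ c * q := by
  have := mul_le_mul_of_nonneg_right h hq
  linarith

theorem aux_quad (n x a : ℝ) (hn : 0 < n) (h1 : n / 5 ≤ a) (h2 : a ≤ n / 2)
    (hx : 11 * x ≤ n) : n / 110 * n + x * n ≤ a * (n - a) := by
  have h3 : n * n * (4 / 25) ≤ a * (n - a) := by
    nlinarith [mul_nonneg (sub_nonneg.2 h1) (sub_nonneg.2 h2)]
  have h4 : x * n ≤ n / 11 * n := mul_le_mul_of_nonneg_right (by linarith) hn.le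
  nlinarith [mul_pos hn hn]

theorem aux_t (t k p x : ℝ) (hk : 1 ≤ k) (h1 : 11 * t ≤ p) (h2 : 11 * x ≤ 5 * (k * p)) :
    t * k + 2 * x ≤ k * p := by
  have := mul_le_mul_of_nonneg_right h1 (show (0 : ℝ) ≤ k by linarith)
  linarith

/-- The main theorem for upward closed properties with thin non-members. -/
theorem key (η : ℝ) (hη : 0 < η) (hη2 : η ≤ 1 / 10) (n r p q k : ℕ) (hr : r.Prime) (hp : p.Prime)
    (hq : q.Prime) (hk : 1 ≤ k) (hnk : n = k * p + r) (hqr : q ∣ r - 1) (hr1 : n / 2 < r)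
    (hr2 : 5 * r ≤ 4 * n) (hpl : (n : ℝ) ^ (1 / 2 + η) < p) (hql : (n : ℝ) ^ (1 / 2 + η) < q)
    (hgcd : (Nat.gcd k (p - 1) : ℝ) ≤ (n : ℝ) ^ (η / 2))
    (hn1 : 1000 ≤ n)
    (hA : 2 * (n : ℝ) ^ (3 / 2 + η / 4) + 1 ≤ (n : ℝ) / 110 * (n : ℝ) ^ (1 / 2 + η / 2))
    (hzn : (n : ℝ) ^ (1 / 2 + η / 2) ≤ n) (hbig : 1000 ≤ (n : ℝ) ^ (η / 4))
    (P : SimpleGraph (Fin n) → Prop)
    (hmono : ∀ G H : SimpleGraph (Fin n), G ≤ H → P G → P H)
    (hiso : ∀ (σ : Fin n ≃ Fin n) (G : SimpleGraph (Fin n)), P G → P (G.map σ.toEmbedding))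
    (hne : ∃ G : SimpleGraph (Fin n), ¬ P G)
    (hthin : ∀ G : SimpleGraph (Fin n), ¬ P G → Thin n (η / 4) G)
    (s : Finset (Sym2 (Fin n)) → SimpleGraph (Fin n) → Sym2 (Fin n))
    (hs : ∀ (Q : Finset (Sym2 (Fin n))) (G H : SimpleGraph (Fin n)),
      (∀ e ∈ Q, (e ∈ G.edgeSet ↔ e ∈ H.edgeSet)) → s Q G = s Q H) :
    ∃ G H : SimpleGraph (Fin n),
      (∀ e ∈ (fun Q : Finset (Sym2 (Fin n)) => insert (s Q G) Q)^[n.choose 2 - 1]
        (∅ : Finset (Sym2 (Fin n))), (e ∈ G.edgeSet ↔ e ∈ H.edgeSet)) ∧ P G ∧ ¬ P H := by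
  have : Fact p.Prime := ⟨hp⟩
  have : Fact r.Prime := ⟨hr⟩
  have : Fact q.Prime := ⟨hq⟩
  have : NeZero k := ⟨by omega⟩
  have hnR : (1000 : ℝ) ≤ n := by exact_mod_cast hn1
  have hn0 : (0 : ℝ) < n := by linarith
  have h1n : (1 : ℝ) ≤ n := by linarith
  have hp2 := hp.two_le
  have hkp : k * p = n - r := by omega
  have hpk : p ≤ k * p := Nat.le_mul_of_pos_left p hk
  have hkk : k ≤ k * p := Nat.le_mul_of_pos_right k hp.pos
  have hrp : p < r := by omega
  have hrk : k < r := by omega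
  set y : ℝ := (n : ℝ) ^ (1 / 2 + η) with hy
  set z : ℝ := (n : ℝ) ^ (1 / 2 + η / 2) with hz
  have hz0 : 0 < z := Real.rpow_pos_of_pos hn0 _
  have hy0 : 0 < y := Real.rpow_pos_of_pos hn0 _
  have hzy : z * (n : ℝ) ^ (η / 2) = y := by
    rw [hz, hy, ← Real.rpow_add hn0]; congr 1; ring
  have hg1 : 1 ≤ (n : ℝ) ^ (η / 2) := Real.one_le_rpow h1n (by linarith)
  have hg0 : 0 < (n : ℝ) ^ (η / 2) := by linarith
  have hzley : z ≤ y := by
    rw [← hzy]
    exact le_mul_of_one_le_right hz0.le hg1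
  have hrr : (n : ℝ) / 2 ≤ r := by
    have : n ≤ 2 * r := by omega
    have : (n : ℝ) ≤ 2 * r := by exact_mod_cast this
    linarith
  have hkpr : (n : ℝ) / 5 ≤ (k : ℝ) * p := by
    have : n ≤ 5 * (k * p) := by omega
    have : (n : ℝ) ≤ 5 * ((k : ℝ) * p) := by exact_mod_cast this
    linarith
  have hsumR : (k : ℝ) * p + r = n := by exact_mod_cast hnk.symm
  have hr0 : (0 : ℝ) < r := by exact_mod_cast hr.pos
  have hp0 : (2 : ℝ) ≤ p := by exact_mod_cast hp2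
  have hk0 : (1 : ℝ) ≤ k := by exact_mod_cast hk
  -- square root
  have hsq : Real.sqrt n = (n : ℝ) ^ (1 / 2 : ℝ) := Real.sqrt_eq_rpow _
  have hyy : Real.sqrt n * (n : ℝ) ^ η = y := by
    rw [hsq, hy, ← Real.rpow_add hn0]
  have hη4 : (n : ℝ) ^ η = (n : ℝ) ^ (η / 4) * (n : ℝ) ^ (η / 4) * ((n : ℝ) ^ (η / 4) *
      (n : ℝ) ^ (η / 4)) := by
    rw [← Real.rpow_add hn0, ← Real.rpow_add hn0]; congr 1; ring
  have hη1000 : 1000 ≤ (n : ℝ) ^ η := by
    refine hbig.trans ?_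
    exact Real.rpow_le_rpow_of_exponent_le h1n (by linarith)
  have hs1 : 1 ≤ Real.sqrt n := by
    rw [Real.one_le_sqrt]; exact h1n
  have hyS : 1000 * Real.sqrt n ≤ y := by
    rw [← hyy, mul_comm]
    exact mul_le_mul_of_nonneg_left hη1000 (by linarith)
  set t : ℕ := ⌈Real.sqrt n⌉₊ with ht
  have htR : (t : ℝ) ≤ 2 * Real.sqrt n := by
    have := (Nat.ceil_lt_add_one (Real.sqrt_nonneg (n : ℝ))).le
    rw [← ht] at this
    linarith
  have htp : (11 : ℝ) * t ≤ p := by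
    have : (1000 : ℝ) * Real.sqrt n ≤ p := by linarith
    linarith
  have hsn : Real.sqrt n * Real.sqrt n = n := Real.mul_self_sqrt hn0.le
  have hsn2 : 22 * Real.sqrt n ≤ n := by
    have h31 : (31 : ℝ) ≤ Real.sqrt n := by
      rw [show (31 : ℝ) = Real.sqrt (31 ^ 2) by rw [Real.sqrt_sq (by norm_num)]]
      exact Real.sqrt_le_sqrt (by linarith)
    have := mul_le_mul_of_nonneg_right h31 (show (0 : ℝ) ≤ Real.sqrt n by linarith)
    linarith
  refine evasive_types n k p r q hnk hqr hrp hrk P hmono hiso hne ?_ s hs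
  intro G f g w hf hg hw hPG hT
  obtain ⟨X, hX, hcase⟩ := hthin G hPG
  have hXR : 11 * (X.card : ℝ) ≤ n := by exact_mod_cast hX
  have hX0 : (0 : ℝ) ≤ X.card := Nat.cast_nonneg _
  -- the order of g ^ k
  set h := orderOf (g ^ k) with hh
  have hgcd0 : 0 < Nat.gcd (p - 1) k := Nat.gcd_pos_of_pos_right _ (by omega)
  have hhg : (h : ℝ) * (Nat.gcd k (p - 1) : ℝ) = (p : ℝ) - 1 := by
    have h1 : h = (p - 1) / Nat.gcd (p - 1) k := by rw [hh, orderOf_pow, hg]
    have h2 : h * Nat.gcd k (p - 1) = p - 1 := by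
      rw [h1, Nat.gcd_comm k, Nat.div_mul_cancel (Nat.gcd_dvd_left _ _)]
    have h3 : ((p - 1 : ℕ) : ℝ) = (p : ℝ) - 1 := by
      rw [Nat.cast_sub (by omega)]; simp
    rw [← h3]
    exact_mod_cast h2
  have hh0 : (0 : ℝ) ≤ h := Nat.cast_nonneg _
  have hhp : (p : ℝ) / 2 ≤ h * (n : ℝ) ^ (η / 2) := by
    have h1 : (h : ℝ) * (Nat.gcd k (p - 1) : ℝ) ≤ h * (n : ℝ) ^ (η / 2) :=
      mul_le_mul_of_nonneg_left hgcd hh0
    rw [hhg] at h1
    linarith
  have hhz : z / 2 ≤ h := by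
    have h1 : z * (n : ℝ) ^ (η / 2) / 2 ≤ h * (n : ℝ) ^ (η / 2) := by rw [hzy]; linarith
    have h2 : z / 2 * (n : ℝ) ^ (η / 2) ≤ h * (n : ℝ) ^ (η / 2) := by linarith
    exact le_of_mul_le_mul_right h2 hg0
  rcases hcase with hE | ⟨hB1, hB2⟩
  · -- few edges
    set N : ℕ := ⌊2 * (n : ℝ) ^ (3 / 2 + η / 4)⌋₊ + 1 with hN
    have hA0 : 0 ≤ 2 * (n : ℝ) ^ (3 / 2 + η / 4) := by positivity
    have hNr : (N : ℝ) ≤ 2 * (n : ℝ) ^ (3 / 2 + η / 4) + 1 := by
      rw [hN]; push_cast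
      have := Nat.floor_le hA0
      linarith
    have hN2 : (N : ℝ) ≤ (n : ℝ) / 110 * z := hNr.trans hA
    have hNn : (N : ℝ) ≤ (n : ℝ) / 110 * n :=
      hN2.trans (mul_le_mul_of_nonneg_left hzn (by positivity))
    have e1 : N + X.card * (orderOf w + orderOf w) ≤ r * orderOf w := by
      rw [hw]
      have : (N : ℝ) + X.card * (q + q) ≤ r * q := by
        have hq0 : z ≤ q := by linarith
        have h5 : (n : ℝ) / 110 * z ≤ (n : ℝ) / 110 * q :=
          mul_le_mul_of_nonneg_left hq0 (by positivity)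
        have h6 : (n : ℝ) / 110 * q + X.card * (q + q) ≤ r * q := by
          have : (n : ℝ) / 110 + 2 * X.card ≤ r := by linarith
          exact aux_mul _ _ _ _ (Nat.cast_nonneg _) this
        linarith
      exact_mod_cast this
    have e2 : N + X.card * (r + k * p) ≤ k * p * r := by
      have : (N : ℝ) + X.card * (r + k * p) ≤ k * p * r := by
        have h5 : (r : ℝ) + k * p = n := by linarith
        rw [h5]
        have h6 : (r : ℝ) = n - k * p := by linarith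
        have h7 : (k : ℝ) * p ≤ n / 2 := by linarith
        have h8 := aux_quad (n : ℝ) X.card (k * p) hn0 hkpr h7 hXR
        rw [← h6] at h8
        linarith
      exact_mod_cast this
    have e3 : N + X.card * (p + p) ≤ k * p * p := by
      have : (N : ℝ) + X.card * (p + p) ≤ k * p * p := by
        have hpz : z ≤ p := by linarith
        have h5 : (n : ℝ) / 110 * z ≤ (n : ℝ) / 110 * p :=
          mul_le_mul_of_nonneg_left hpz (by positivity)
        have h6 : (n : ℝ) / 110 * p + X.card * (p + p) ≤ k * p * p := by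
          have : (n : ℝ) / 110 + 2 * X.card ≤ k * p := by linarith
          exact aux_mul _ _ _ _ (by linarith) this
        linarith
      exact_mod_cast this
    have e4 : N + X.card * (orderOf (g ^ k) + orderOf (g ^ k)) ≤ k * p * orderOf (g ^ k) := by
      rw [← hh]
      have : (N : ℝ) + X.card * (h + h) ≤ k * p * h := by
        have h5 : (n : ℝ) / 110 * z ≤ (n : ℝ) / 55 * h := by
          have := mul_le_mul_of_nonneg_left hhz (show (0 : ℝ) ≤ (n : ℝ) / 55 by positivity)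
          linarith
        have h6 : (n : ℝ) / 55 * h + X.card * (h + h) ≤ k * p * h := by
          have : (n : ℝ) / 55 + 2 * X.card ≤ k * p := by linarith
          exact aux_mul _ _ _ _ hh0 this
        linarith
      exact_mod_cast this
    have hfin := edges_avoid G f hf g w X N e1 e2 e3 e4 hT
    have h11 : 2 * (n : ℝ) ^ (3 / 2 + η / 4) < N := by
      rw [hN]; push_cast; exact Nat.lt_floor_add_one _
    have h12 : (N : ℝ) ≤ 2 * (eav G X : ℝ) := by exact_mod_cast hfin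
    have h13 : (eav G X : ℝ) ≤ (n : ℝ) ^ (3 / 2 + η / 4) := hE
    linarith
  · -- no large complete bipartite graph, many empty pairs
    set lam : ℝ := (n : ℝ) ^ (-(η / 4)) with hlam
    have hlam0 : 0 < lam := Real.rpow_pos_of_pos hn0 _
    have hll : lam ^ 2 * (n : ℝ) ^ (η / 2) = 1 := by
      rw [hlam, ← Real.rpow_natCast, ← Real.rpow_mul hn0.le, ← Real.rpow_add hn0]
      have h0 : -(η / 4) * ((2 : ℕ) : ℝ) + η / 2 = 0 := by push_cast; ring
      rw [h0, Real.rpow_zero]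
    refine no_type G X f hf g w t lam hlam0 ?_ ?_ ?_ ?_ ?_ hB1 hB2 hT
    · have : (t : ℝ) * k + 2 * X.card ≤ k * p := aux_t _ _ _ _ hk0 htp (by linarith)
      exact_mod_cast this
    · have : (t : ℝ) + X.card ≤ r := by linarith
      exact_mod_cast this
    · omega
    · rw [hw]
      have h5 : y ^ 2 ≤ (q : ℝ) ^ 2 := by
        apply pow_le_pow_left₀ hy0.le hql.le
      have h6 : y ^ 2 = n * ((n : ℝ) ^ η * (n : ℝ) ^ η) := by
        rw [← hyy]
        calc (Real.sqrt n * (n : ℝ) ^ η) ^ 2 = (Real.sqrt n * Real.sqrt n) *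
            ((n : ℝ) ^ η * (n : ℝ) ^ η) := by ring
          _ = _ := by rw [hsn]
      have h7 : (n : ℝ) ^ η = (n : ℝ) ^ (η / 2) * (n : ℝ) ^ (η / 2) := by
        rw [← Real.rpow_add hn0]; congr 1; ring
      have h8 : lam ^ 2 * y ^ 2 = n * ((n : ℝ) ^ (η / 2) * (n : ℝ) ^ η) := by
        rw [h6]
        calc lam ^ 2 * (n * ((n : ℝ) ^ η * (n : ℝ) ^ η)) =
            (lam ^ 2 * (n : ℝ) ^ (η / 2)) * (n * ((n : ℝ) ^ (η / 2) * (n : ℝ) ^ η)) := by
              rw [h7]; ring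
          _ = _ := by rw [hll, one_mul]
      have h9 : 4 * (r : ℝ) < lam ^ 2 * y ^ 2 := by
        rw [h8]
        have h10 : 1000 ≤ (n : ℝ) ^ (η / 2) * (n : ℝ) ^ η :=
          hη1000.trans (le_mul_of_one_le_left (by linarith) hg1)
        have h11 : 4 * (r : ℝ) ≤ 4 * n := by linarith
        have h12 := mul_le_mul_of_nonneg_left h10 hn0.le
        linarith
      calc 4 * (r : ℝ) < lam ^ 2 * y ^ 2 := h9
        _ ≤ lam ^ 2 * (q : ℝ) ^ 2 := mul_le_mul_of_nonneg_left h5 (by positivity)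
    · rw [← hh]
      -- lam^2 h^2 ≥ lam^2 (p/2)^2 / n^η
      have h5 : (p / 2 : ℝ) ^ 2 ≤ (h * (n : ℝ) ^ (η / 2)) ^ 2 :=
        pow_le_pow_left₀ (by linarith) hhp 2
      have h7 : (n : ℝ) ^ η = (n : ℝ) ^ (η / 2) * (n : ℝ) ^ (η / 2) := by
        rw [← Real.rpow_add hn0]; congr 1; ring
      have h8 : lam ^ 2 * (h * (n : ℝ) ^ (η / 2)) ^ 2 = h ^ 2 * (n : ℝ) ^ (η / 2) := by
        calc lam ^ 2 * (h * (n : ℝ) ^ (η / 2)) ^ 2 =
            (lam ^ 2 * (n : ℝ) ^ (η / 2)) * (h ^ 2 * (n : ℝ) ^ (η / 2)) := by ring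
          _ = _ := by rw [hll, one_mul]
      -- want: 4 p < lam^2 h^2; multiply by n^η
      have hnη0 : 0 < (n : ℝ) ^ η := by linarith
      have h9 : lam ^ 2 * (h : ℝ) ^ 2 * (n : ℝ) ^ η = lam ^ 2 * (h * (n : ℝ) ^ (η / 2)) ^ 2 := by
        rw [h7]; ring
      have h10 : 4 * (p : ℝ) * (n : ℝ) ^ η < lam ^ 2 * (h : ℝ) ^ 2 * (n : ℝ) ^ η := by
        rw [h9]
        have h11 : lam ^ 2 * (p / 2 : ℝ) ^ 2 ≤ lam ^ 2 * (h * (n : ℝ) ^ (η / 2)) ^ 2 :=
          mul_le_mul_of_nonneg_left h5 (by positivity)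
        refine lt_of_lt_of_le ?_ h11
        -- 16 n^η < lam^2 p
        have h12 : 16 * (n : ℝ) ^ η < lam ^ 2 * p := by
          have h13 : lam ^ 2 * y ≤ lam ^ 2 * p := mul_le_mul_of_nonneg_left hpl.le (by positivity)
          have h14 : lam ^ 2 * y = (n : ℝ) ^ (1 / 2 + η / 2) := by
            rw [← hzy, hz]
            calc lam ^ 2 * ((n : ℝ) ^ (1 / 2 + η / 2) * (n : ℝ) ^ (η / 2)) =
                (lam ^ 2 * (n : ℝ) ^ (η / 2)) * (n : ℝ) ^ (1 / 2 + η / 2) := by ring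
              _ = _ := by rw [hll, one_mul]
          have h15 : (n : ℝ) ^ η * (n : ℝ) ^ (η / 4) ≤ (n : ℝ) ^ (1 / 2 + η / 2) := by
            rw [← Real.rpow_add hn0]
            exact Real.rpow_le_rpow_of_exponent_le h1n (by linarith)
          have h16 := mul_le_mul_of_nonneg_left hbig hnη0.le
          linarith
        have h17 := mul_lt_mul_of_pos_right h12 (show (0 : ℝ) < p / 4 by linarith)
        linarith
      exact lt_of_mul_lt_mul_right h10 hnη0.le

/-- **Unconditional evasiveness of thin monotone graph properties.** -/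
theorem result : ∃ c : ℝ, 0 < c ∧ ∃ n₀ : ℕ, ∀ n : ℕ, n₀ ≤ n →
    ∀ P : SimpleGraph (Fin n) → Prop,
      (∀ G H : SimpleGraph (Fin n), G ≤ H → P G → P H) →
      (∀ (σ : Fin n ≃ Fin n) (G : SimpleGraph (Fin n)), P G → P (G.map σ.toEmbedding)) →
      (∃ G : SimpleGraph (Fin n), P G) →
      (∃ G : SimpleGraph (Fin n), ¬ P G) →
      ((∀ G : SimpleGraph (Fin n), ¬ P G → Thin n c G) ∨
        (∀ G : SimpleGraph (Fin n), P G → Thin n c Gᶜ)) →
      ∀ s : Finset (Sym2 (Fin n)) → SimpleGraph (Fin n) → Sym2 (Fin n),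
        (∀ (Q : Finset (Sym2 (Fin n))) (G H : SimpleGraph (Fin n)),
            (∀ e ∈ Q, (e ∈ G.edgeSet ↔ e ∈ H.edgeSet)) → s Q G = s Q H) →
        ∃ G H : SimpleGraph (Fin n),
          (∀ e ∈ (fun Q : Finset (Sym2 (Fin n)) => insert (s Q G) Q)^[n.choose 2 - 1]
                (∅ : Finset (Sym2 (Fin n))),
              (e ∈ G.edgeSet ↔ e ∈ H.edgeSet)) ∧ P G ∧ ¬ P H := by
  obtain ⟨η, hη, hη2, n₁, hgood⟩ := good_primes
  obtain ⟨n₂, hnum⟩ := numeric η hη hη2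
  refine ⟨η / 4, by linarith, max n₁ n₂, ?_⟩
  intro n hn P hmono hiso hex hne hthin s hs
  obtain ⟨r, p, q, k, hr, hp, hq, hk, hnk, hqr, hr1, hr2, hpl, hql, hgcd⟩ :=
    hgood n ((le_max_left _ _).trans hn)
  obtain ⟨hn1, hA, hzn, hbig⟩ := hnum n ((le_max_right _ _).trans hn)
  rcases hthin with hthin | hthin
  · exact key η hη hη2 n r p q k hr hp hq hk hnk hqr hr1 hr2 hpl hql hgcd hn1 hA hzn hbig P hmono
      hiso hne hthin s hs
  · refine dual_strategy18 n P ?_ s hs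
    intro s' hs'
    refine key η hη hη2 n r p q k hr hp hq hk hnk hqr hr1 hr2 hpl hql hgcd hn1 hA hzn hbig
      (fun G => ¬ P Gᶜ) ?_ ?_ ?_ ?_ s' hs'
    · intro G H hGH hG hH
      exact hG (hmono _ _ (compl_le_compl hGH) hH)
    · intro σ G hG hG'
      apply hG
      have h1 := hiso σ.symm _ hG'
      have h2 : ((G.map σ.toEmbedding)ᶜ).map σ.symm.toEmbedding = Gᶜ := by
        ext a b
        simp only [SimpleGraph.map_adj, SimpleGraph.compl_adj]
        constructor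
        · rintro ⟨u, v, ⟨huv, hn⟩, rfl, rfl⟩
          refine ⟨by simpa using huv, fun hadj => hn ⟨_, _, hadj, by simp, by simp⟩⟩
        · rintro ⟨hab, hn⟩
          refine ⟨σ a, σ b, ⟨by simpa using hab, ?_⟩, by simp, by simp⟩
          rintro ⟨u, v, hadj, hu, hv⟩
          simp only [Equiv.coe_toEmbedding, EmbeddingLike.apply_eq_iff_eq] at hu hv
          subst hu; subst hv
          exact hn hadj
      rw [h2] at h1
      exact h1
    · obtain ⟨G, hG⟩ := hex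
      exact ⟨Gᶜ, by simpa using hG⟩
    · intro G hG
      have h1 := hthin Gᶜ (by simpa using hG)
      rwa [compl_compl] at h1

end Pool.Agent.Results.MP_257582_lc.SparseEvasive
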